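import Pool.Agent.Y320.CC.Graph

set_option autoImplicit false

/-!
# Tietze's graph is 3-connected
-/

namespace Pool.Agent.Y320.CC

/-- One breadth-first step avoiding the list `S`. -/
def stp (S R : List (Fin 12)) : List (Fin 12) :=
  R ++ (List.finRange 12).filter (fun v => decide (v ∉ S) && decide (v ∉ R) &&
    (nbr v).any (fun u => decide (u ∈ R)))

/-- All vertices reached. -/
def reach (S : List (Fin 12)) : ℕ → List (Fin 12) → List (Fin 12)
  | 0, R => R
  | n + 1, R => reach S n (stp S R)

theorem reach_sound (S : List (Fin 12)) (T : Set (Fin 12)) (hT : ∀ v, v ∈ T ↔ v ∉ S)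
    (r : Fin 12) (hr : r ∈ T) (n : ℕ) : ∀ R : List (Fin 12),
    (∀ v ∈ R, ∃ h : v ∈ T, (tg.induce T).Reachable ⟨r, hr⟩ ⟨v, h⟩) →
    ∀ v ∈ reach S n R, ∃ h : v ∈ T, (tg.induce T).Reachable ⟨r, hr⟩ ⟨v, h⟩ := by
  induction n with
  | zero => exact fun R hR => hR
  | succ n ih =>
    intro R hR
    refine ih (stp S R) ?_
    intro v hv
    rw [stp, List.mem_append, List.mem_filter] at hv
    rcases hv with hv | ⟨_, hv⟩
    · exact hR v hv
    · rw [Bool.and_eq_true, Bool.and_eq_true, List.any_eq_true] at hv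
      obtain ⟨⟨h1, _⟩, u, hu, h3⟩ := hv
      have h4 : v ∈ T := (hT v).2 (of_decide_eq_true h1)
      obtain ⟨h5, h6⟩ := hR u (of_decide_eq_true h3)
      refine ⟨h4, h6.trans (SimpleGraph.Adj.reachable ?_)⟩
      have : tg.Adj v u := hu
      exact this.symm

/-- The root used. -/
def root (S : List (Fin 12)) : Fin 12 :=
  if (0 : Fin 12) ∉ S then 0 else if (1 : Fin 12) ∉ S then 1 else 2

/-- The check. -/
def chk (S : List (Fin 12)) : Bool :=
  decide (root S ∉ S) && (List.finRange 12).all (fun v => decide (v ∈ S) ||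
    decide (v ∈ reach S 6 [root S]))

theorem chk_sound (S : List (Fin 12)) (T : Set (Fin 12)) (hT : ∀ v, v ∈ T ↔ v ∉ S)
    (h : chk S = true) : (tg.induce T).Connected := by
  rw [chk, Bool.and_eq_true, List.all_eq_true] at h
  obtain ⟨h1, h2⟩ := h
  have hr : root S ∈ T := (hT _).2 (of_decide_eq_true h1)
  have key : ∀ v : T, (tg.induce T).Reachable ⟨root S, hr⟩ v := by
    rintro ⟨v, hv⟩
    have h3 := h2 v (List.mem_finRange v)
    rw [Bool.or_eq_true] at h3
    rcases h3 with h3 | h3
    · exact absurd (of_decide_eq_true h3) ((hT v).1 hv)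
    · obtain ⟨h4, h5⟩ := reach_sound S T hT (root S) hr 6 [root S] (by
        intro u hu
        rw [List.mem_singleton] at hu
        subst hu
        exact ⟨hr, SimpleGraph.Reachable.refl _⟩) v (of_decide_eq_true h3)
      exact h5
  rw [SimpleGraph.connected_iff]
  exact ⟨fun a b => (key a).symm.trans (key b), ⟨⟨root S, hr⟩⟩⟩

set_option maxRecDepth 100000 in
theorem chk_all : ∀ a b : Fin 12, chk [a, b] = true := by
  decide +kernel

theorem chk_nil : chk [] = true := by decide +kernel

theorem three_conn : ThreeConnected tg := by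
  refine ⟨by simp, fun S hS => ?_⟩
  have h0 : S.card = 0 ∨ S.card = 1 ∨ S.card = 2 := by omega
  rcases h0 with h | h | h
  · rw [Finset.card_eq_zero] at h
    subst h
    exact chk_sound [] _ (by simp) chk_nil
  · rw [Finset.card_eq_one] at h
    obtain ⟨a, rfl⟩ := h
    exact chk_sound [a, a] _ (by simp) (chk_all a a)
  · rw [Finset.card_eq_two] at h
    obtain ⟨a, b, _, rfl⟩ := h
    exact chk_sound [a, b] _ (by simp) (chk_all a b)

end Pool.Agent.Y320.CC
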