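import Mathlib

set_option autoImplicit false

/-!
# Cycle covers and postman tours: the definitions
-/

namespace Pool.Agent.Y320.CC

/-- `C` is the edge set of a cycle (connected 2-regular subgraph) of `G`. -/
def IsCyc {V : Type} (G : SimpleGraph V) (C : Finset (Sym2 V)) : Prop :=
  ∃ (v : V) (p : G.Walk v v), p.IsCycle ∧ ∀ e, e ∈ C ↔ e ∈ p.edges

/-- `F` is a family of cycles of `G` such that every edge lies in at least one member. -/
def IsCover {V : Type} (G : SimpleGraph V) (F : Multiset (Finset (Sym2 V))) : Prop :=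
  (∀ C ∈ F, IsCyc G C) ∧ ∀ e ∈ G.edgeSet, ∃ C ∈ F, e ∈ C

/-- `SCC(G)`: the least total length of a family of cycles covering all edges. -/
noncomputable def scc {V : Type} (G : SimpleGraph V) : ℕ :=
  sInf {n | ∃ F : Multiset (Finset (Sym2 V)), IsCover G F ∧ (F.map Finset.card).sum = n}

/-- `CPP(G)`: the least length of a closed walk traversing every edge at least once. -/
noncomputable def cpp {V : Type} (G : SimpleGraph V) : ℕ :=
  sInf {n | ∃ (v : V) (p : G.Walk v v), (∀ e ∈ G.edgeSet, e ∈ p.edges) ∧ p.length = n}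

/-- The edge cut of the vertex set `S`: the edges of `G` with exactly one end in `S`. -/
def cut {V : Type} (G : SimpleGraph V) (S : Set V) : Set (Sym2 V) :=
  {e | e ∈ G.edgeSet ∧ ∃ a b, a ∈ S ∧ b ∉ S ∧ e = s(a, b)}

open Classical in
/-- `w` takes the values 1 and 2 on the edges, and every edge cut has even total weight. -/
def IsEulerianWeight {V : Type} [Fintype V] (G : SimpleGraph V) (w : Sym2 V → ℕ) : Prop :=
  (∀ e ∈ G.edgeSet, w e = 1 ∨ w e = 2) ∧
    ∀ S : Set V, Even (∑ e ∈ Finset.univ.filter (fun e => e ∈ cut G S), w e)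

open Classical in
/-- A cycle `w`-cover: a family of cycles such that every edge `e` is in exactly `w e` of them. -/
def HasCycleCover {V : Type} (G : SimpleGraph V) (w : Sym2 V → ℕ) : Prop :=
  ∃ F : Multiset (Finset (Sym2 V)), (∀ C ∈ F, IsCyc G C) ∧
    ∀ e ∈ G.edgeSet, F.countP (fun C => e ∈ C) = w e

/-- At least four vertices, and connected after deleting any set of at most two vertices. -/
def ThreeConnected {V : Type} [Fintype V] (G : SimpleGraph V) : Prop :=
  4 ≤ Fintype.card V ∧ ∀ S : Finset V, S.card ≤ 2 → (G.induce ((S : Set V)ᶜ)).Connected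

end Pool.Agent.Y320.CC
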