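import Pool.Agent.Y320.CC.Defs

set_option autoImplicit false

/-!
# Tietze's graph: the Petersen graph with a vertex replaced by a triangle
-/

namespace Pool.Agent.Y320.CC

/-- neighbours -/
def nbr : Fin 12 → List (Fin 12) :=
  ![[5,10,11],[11,2,6],[1,3,7],[2,4,8],[3,10,9],[0,7,8],[1,8,9],[2,5,9],[3,5,6],[4,6,7],[4,0,11],
    [1,0,10]]

/-- Tietze's graph. -/
def tg : SimpleGraph (Fin 12) where
  Adj a b := b ∈ nbr a
  symm := ⟨by decide⟩
  loopless := ⟨by decide⟩

instance : DecidableRel tg.Adj := fun a b => inferInstanceAs (Decidable (b ∈ nbr a))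

/-- The 18 edges. -/
def el : List (Sym2 (Fin 12)) :=
  [s(0,5), s(0,10), s(0,11), s(1,11), s(1,2), s(1,6), s(2,3), s(2,7), s(3,4), s(3,8), s(4,10),
   s(4,9), s(5,7), s(5,8), s(6,8), s(6,9), s(7,9), s(10,11)]

theorem adj_iff (a b : Fin 12) : tg.Adj a b ↔ s(a, b) ∈ el := by
  revert a b
  decide

theorem mem_edgeSet (e : Sym2 (Fin 12)) : e ∈ tg.edgeSet ↔ e ∈ el := by
  induction e using Sym2.ind with
  | _ a b => rw [SimpleGraph.mem_edgeSet, adj_iff]

/-- Number of edges (with multiplicity) at a vertex in a multiset of edges. -/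
def dg {V : Type} [DecidableEq V] (L : Multiset (Sym2 V)) (x : V) : ℕ :=
  L.countP (fun e => x ∈ e)

theorem dg_zero {V : Type} [DecidableEq V] (x : V) : dg (0 : Multiset (Sym2 V)) x = 0 := by
  simp [dg]

theorem dg_add {V : Type} [DecidableEq V] (L M : Multiset (Sym2 V)) (x : V) :
    dg (L + M) x = dg L x + dg M x := by
  simp [dg, Multiset.countP_add]

theorem dg_cons {V : Type} [DecidableEq V] (e : Sym2 V) (L : Multiset (Sym2 V)) (x : V) :
    dg (e ::ₘ L) x = dg L x + if x ∈ e then 1 else 0 := by
  simp [dg, Multiset.countP_cons]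

theorem sum_mem_sym2 {V : Type} [Fintype V] [DecidableEq V] (e : Sym2 V) (he : ¬ e.IsDiag) :
    ∑ x : V, (if x ∈ e then 1 else 0) = 2 := by
  induction e using Sym2.ind with
  | _ a b =>
    have hab : a ≠ b := by
      intro h
      exact he (by simp [h])
    have : (Finset.univ.filter (fun x : V => x ∈ s(a, b))) = {a, b} := by
      ext x
      simp
    rw [← Finset.sum_filter, this, Finset.sum_const, Finset.card_pair hab]
    rfl

theorem sum_dg {V : Type} [Fintype V] [DecidableEq V] (L : Multiset (Sym2 V))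
    (hL : ∀ e ∈ L, ¬ e.IsDiag) : ∑ x : V, dg L x = 2 * Multiset.card L := by
  induction L using Multiset.induction_on with
  | empty => simp [dg]
  | cons e L ih =>
    have h1 : ∑ x : V, dg (e ::ₘ L) x = ∑ x : V, dg L x + ∑ x : V, (if x ∈ e then 1 else 0) := by
      rw [← Finset.sum_add_distrib]
      exact Finset.sum_congr rfl (fun x _ => dg_cons e L x)
    rw [h1, ih (fun f hf => hL f (Multiset.mem_cons_of_mem hf)),
      sum_mem_sym2 e (hL e (Multiset.mem_cons_self e L)), Multiset.card_cons]
    ring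

/-- Parity of the number of traversals at a vertex of a walk. -/
theorem walk_parity {V : Type} [DecidableEq V] {G : SimpleGraph V} {u v : V} (p : G.Walk u v)
    (x : V) : (dg (p.edges : Multiset (Sym2 V)) x + (if x = u then 1 else 0) +
      (if x = v then 1 else 0)) % 2 = 0 := by
  induction p with
  | nil =>
    simp only [SimpleGraph.Walk.edges_nil, Multiset.coe_nil, dg_zero]
    split_ifs <;> rfl
  | @cons u w v h p ih =>
    have hne : u ≠ w := h.ne
    rw [SimpleGraph.Walk.edges_cons, ← Multiset.cons_coe, dg_cons]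
    have h2 : (if x ∈ s(u, w) then 1 else 0) = (if x = u then 1 else 0) + (if x = w then 1 else 0)
        := by
      by_cases hu : x = u
      · subst hu
        simp [hne]
      · by_cases hw : x = w
        · subst hw
          simp [hu]
        · simp [hu, hw]
    rw [h2]
    omega

theorem closed_even {V : Type} [DecidableEq V] {G : SimpleGraph V} {v : V} (p : G.Walk v v)
    (x : V) : Even (dg (p.edges : Multiset (Sym2 V)) x) := by
  have h := walk_parity p x
  rw [Nat.even_iff]
  split_ifs at h <;> omega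

theorem cyc_even {V : Type} [DecidableEq V] {G : SimpleGraph V} {C : Finset (Sym2 V)}
    (h : IsCyc G C) (x : V) : Even (dg C.val x) := by
  classical
  obtain ⟨v, p, hp, hC⟩ := h
  have h1 : C.val = (p.edges : Multiset (Sym2 V)) := by
    have h2 : C = p.edges.toFinset := by
      ext e
      rw [List.mem_toFinset, hC]
    rw [h2, List.toFinset_val, hp.edges_nodup.dedup]
  rw [h1]
  exact closed_even p x

theorem cyc_sub {V : Type} {G : SimpleGraph V} {C : Finset (Sym2 V)}
    (h : IsCyc G C) {e : Sym2 V} (he : e ∈ C) : e ∈ G.edgeSet := by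
  obtain ⟨v, p, hp, hC⟩ := h
  exact p.edges_subset_edgeSet ((hC e).1 he)

/-- The three edges at a vertex of Tietze's graph. -/
def inc : Fin 12 → List (Sym2 (Fin 12)) := fun x => (nbr x).map (fun y => s(x, y))

theorem inc_mem (x : Fin 12) (e : Sym2 (Fin 12)) (he : e ∈ inc x) : e ∈ el ∧ x ∈ e := by
  revert e
  revert x
  decide

theorem inc_nodup (x : Fin 12) : (inc x).Nodup ∧ (inc x).length = 3 := by
  revert x
  decide

theorem three_le_dg (L : Multiset (Sym2 (Fin 12))) (hL : ∀ e ∈ el, e ∈ L) (x : Fin 12) :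
    3 ≤ dg L x := by
  have h1 : ((inc x : List (Sym2 (Fin 12))) : Multiset (Sym2 (Fin 12))) ≤
      L.filter (fun e => x ∈ e) := by
    rw [Multiset.le_iff_subset (Multiset.coe_nodup.2 (inc_nodup x).1)]
    intro e he
    have he' : e ∈ inc x := he
    rw [Multiset.mem_filter]
    exact ⟨hL e (inc_mem x e he').1, (inc_mem x e he').2⟩
  have h2 := Multiset.card_le_card h1
  rw [Multiset.coe_card, (inc_nodup x).2] at h2
  rw [dg, Multiset.countP_eq_card_filter]
  exact h2

/-- Any multiset of edges containing all edges and with even degrees has at least 24 elements. -/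
theorem le_card (L : Multiset (Sym2 (Fin 12))) (hd : ∀ e ∈ L, ¬ e.IsDiag)
    (hL : ∀ e ∈ el, e ∈ L) (hev : ∀ x, Even (dg L x)) : 24 ≤ Multiset.card L := by
  have h1 : ∀ x : Fin 12, 4 ≤ dg L x := by
    intro x
    have h2 := three_le_dg L hL x
    obtain ⟨k, hk⟩ := hev x
    omega
  have h3 : ∑ x : Fin 12, 4 ≤ ∑ x : Fin 12, dg L x := Finset.sum_le_sum (fun x _ => h1 x)
  rw [sum_dg L hd] at h3
  simp at h3
  omega

end Pool.Agent.Y320.CC
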