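import Pool.Agent.Y320.CC.Vals

set_option autoImplicit false

/-!
# A coverless eulerian weight on Tietze's graph
-/

namespace Pool.Agent.Y320.CC

open Classical in
theorem even_cut {V : Type} [Fintype V] (G : SimpleGraph V) (w : Sym2 V → ℕ)
    (h : ∀ x, Even (∑ e ∈ Finset.univ.filter (fun e => e ∈ G.edgeSet ∧ x ∈ e), w e)) (S : Set V) :
    Even (∑ e ∈ Finset.univ.filter (fun e => e ∈ cut G S), w e) := by
  have key : ∀ e : Sym2 V, e ∈ G.edgeSet →
      ((∑ x : V, if x ∈ S ∧ x ∈ e then 1 else 0 : ℕ) : ZMod 2) =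
        if e ∈ cut G S then 1 else 0 := by
    intro e
    induction e using Sym2.ind with
    | _ a b =>
      intro he
      have hab : a ≠ b := (G.mem_edgeSet.1 he).ne
      have h1 : (∑ x : V, if x ∈ S ∧ x ∈ s(a, b) then 1 else 0 : ℕ) =
          (if a ∈ S then 1 else 0) + (if b ∈ S then 1 else 0) := by
        have h2 : ∀ x : V, (if x ∈ S ∧ x ∈ s(a, b) then 1 else 0 : ℕ) =
            (if x = a then (if a ∈ S then 1 else 0) else 0) +
              (if x = b then (if b ∈ S then 1 else 0) else 0) := by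
          intro x
          by_cases hxa : x = a
          · subst hxa
            simp [hab]
          · by_cases hxb : x = b
            · subst hxb
              simp [hxa]
            · simp [hxa, hxb]
        rw [Finset.sum_congr rfl (fun x _ => h2 x), Finset.sum_add_distrib,
          Finset.sum_ite_eq', Finset.sum_ite_eq']
        simp
      rw [h1]
      have hc : s(a, b) ∈ cut G S ↔ ((a ∈ S ∧ b ∉ S) ∨ (b ∈ S ∧ a ∉ S)) := by
        constructor
        · rintro ⟨_, c, d, hc, hd, hcd⟩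
          rw [Sym2.eq_iff] at hcd
          rcases hcd with ⟨rfl, rfl⟩ | ⟨rfl, rfl⟩
          · exact Or.inl ⟨hc, hd⟩
          · exact Or.inr ⟨hc, hd⟩
        · rintro (⟨h3, h4⟩ | ⟨h3, h4⟩)
          · exact ⟨he, a, b, h3, h4, rfl⟩
          · exact ⟨he, b, a, h3, h4, Sym2.eq_swap⟩
      rw [if_congr hc rfl rfl]
      by_cases ha : a ∈ S <;> by_cases hb : b ∈ S <;> simp [ha, hb]
      decide
  have h0 : (((∑ e ∈ Finset.univ.filter (fun e => e ∈ cut G S), w e : ℕ)) : ZMod 2) = 0 := by
    have e1 : (((∑ e ∈ Finset.univ.filter (fun e => e ∈ cut G S), w e : ℕ)) : ZMod 2) =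
        ∑ e ∈ Finset.univ.filter (fun e => e ∈ G.edgeSet),
          (w e : ZMod 2) * (if e ∈ cut G S then 1 else 0) := by
      push_cast
      rw [Finset.sum_filter, Finset.sum_filter]
      refine Finset.sum_congr rfl (fun e _ => ?_)
      by_cases hc : e ∈ cut G S
      · have : e ∈ G.edgeSet := hc.1
        simp [hc, this]
      · simp [hc]
    rw [e1]
    have e2 : ∑ e ∈ Finset.univ.filter (fun e => e ∈ G.edgeSet),
          (w e : ZMod 2) * (if e ∈ cut G S then 1 else 0) =
        ∑ e ∈ Finset.univ.filter (fun e => e ∈ G.edgeSet),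
          ∑ x : V, (w e : ZMod 2) * (if x ∈ S ∧ x ∈ e then 1 else 0) := by
      refine Finset.sum_congr rfl (fun e he => ?_)
      rw [Finset.mem_filter] at he
      rw [← key e he.2, ← Finset.mul_sum]
      push_cast
      rfl
    rw [e2, Finset.sum_comm]
    refine Finset.sum_eq_zero (fun x _ => ?_)
    by_cases hx : x ∈ S
    · have e3 : ∑ e ∈ Finset.univ.filter (fun e => e ∈ G.edgeSet),
          (w e : ZMod 2) * (if x ∈ S ∧ x ∈ e then 1 else 0) =
          ((∑ e ∈ Finset.univ.filter (fun e => e ∈ G.edgeSet ∧ x ∈ e), w e : ℕ) : ZMod 2) := by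
        push_cast
        rw [Finset.sum_filter, Finset.sum_filter]
        refine Finset.sum_congr rfl (fun e _ => ?_)
        by_cases h5 : e ∈ G.edgeSet <;> by_cases h6 : x ∈ e <;> simp [h5, h6, hx]
      rw [e3]
      exact (ZMod.natCast_eq_zero_iff_even).2 (h x)
    · refine Finset.sum_eq_zero (fun e _ => ?_)
      simp [hx]
  exact (ZMod.natCast_eq_zero_iff_even).1 h0

/-- The edges of weight two. -/
def hv : List (Sym2 (Fin 12)) := [s(0,5), s(10,11), s(1,6), s(2,7), s(3,8), s(4,9)]

/-- The weight. -/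
def wt (e : Sym2 (Fin 12)) : ℕ := if e ∈ hv then 2 else 1

theorem mem_inc_iff (x : Fin 12) : ∀ e ∈ el, (x ∈ e ↔ e ∈ inc x) := by
  revert x
  decide

theorem wt_inc (x : Fin 12) : ((inc x).map wt).sum = 4 := by
  revert x
  decide

theorem wt_eulerian : IsEulerianWeight tg wt := by
  classical
  refine ⟨fun e _ => ?_, ?_⟩
  · rw [wt]
    split_ifs
    · exact Or.inr rfl
    · exact Or.inl rfl
  · intro S
    refine even_cut tg wt (fun x => ?_) S
    have h2 : ∀ D : Finset (Sym2 (Fin 12)), (∀ e, e ∈ D ↔ (e ∈ tg.edgeSet ∧ x ∈ e)) →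
        Even (∑ e ∈ D, wt e) := by
      intro D hD
      have h1 : D = (inc x).toFinset := by
        ext e
        rw [hD, List.mem_toFinset]
        constructor
        · rintro ⟨h2, h3⟩
          exact (mem_inc_iff x e ((mem_edgeSet e).1 h2)).1 h3
        · intro h2
          exact ⟨(mem_edgeSet e).2 (inc_mem x e h2).1, (inc_mem x e h2).2⟩
      rw [h1, List.sum_toFinset _ (inc_nodup x).1, wt_inc x]
      exact ⟨2, rfl⟩
    refine h2 _ (fun e => ?_)
    simp only [Finset.mem_filter, Finset.mem_univ, true_and]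

/-- Indicator. -/
def k (C : Finset (Sym2 (Fin 12))) (e : Sym2 (Fin 12)) : ℕ := if e ∈ C then 1 else 0

theorem k_le (C : Finset (Sym2 (Fin 12))) (e : Sym2 (Fin 12)) : k C e ≤ 1 := by
  rw [k]
  split_ifs <;> omega

theorem countP_k (F : Multiset (Finset (Sym2 (Fin 12)))) (e : Sym2 (Fin 12))
    [inst : DecidablePred (fun C : Finset (Sym2 (Fin 12)) => e ∈ C)] :
    F.countP (fun C => e ∈ C) = (F.map (fun C => k C e)).sum := by
  induction F using Multiset.induction_on with
  | empty => simp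
  | cons C F ih =>
    rw [Multiset.countP_cons, ih, Multiset.map_cons, Multiset.sum_cons, k]
    by_cases h : e ∈ C
    · rw [if_pos h, if_pos h]
      ring
    · rw [if_neg h, if_neg h]
      ring

theorem dg_k (C : Finset (Sym2 (Fin 12))) (hC : ∀ e ∈ C, e ∈ el) (x : Fin 12) :
    dg C.val x = ((inc x).map (k C)).sum := by
  have h1 : dg C.val x = (C.filter (fun e => x ∈ e)).card := by
    rw [dg, Multiset.countP_eq_card_filter]
    rfl
  have h2 : C.filter (fun e => x ∈ e) = (inc x).toFinset.filter (fun e => e ∈ C) := by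
    ext e
    rw [Finset.mem_filter, Finset.mem_filter, List.mem_toFinset]
    constructor
    · rintro ⟨h3, h4⟩
      exact ⟨(mem_inc_iff x e (hC e h3)).1 h4, h3⟩
    · rintro ⟨h3, h4⟩
      exact ⟨h4, (inc_mem x e h3).2⟩
  rw [h1, h2, Finset.card_filter, List.sum_toFinset _ (inc_nodup x).1]
  rfl

theorem eq_of_sum {α : Type} (F : Multiset α) (f g : α → ℕ) (h : ∀ a ∈ F, f a ≤ g a)
    (hs : (F.map g).sum ≤ (F.map f).sum) : ∀ a ∈ F, f a = g a := by
  induction F using Multiset.induction_on with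
  | empty => simp
  | cons a F ih =>
    rw [Multiset.map_cons, Multiset.sum_cons, Multiset.map_cons, Multiset.sum_cons] at hs
    have h1 := h a (Multiset.mem_cons_self a F)
    have h2 : (F.map f).sum ≤ (F.map g).sum :=
      Multiset.sum_map_le_sum_map f g (fun b hb => h b (Multiset.mem_cons_of_mem hb))
    intro b hb
    rw [Multiset.mem_cons] at hb
    rcases hb with rfl | hb
    · omega
    · exact ih (fun b hb => h b (Multiset.mem_cons_of_mem hb)) (by omega) b hb

theorem even_aux (o0 o1 o2 o3 o4 n0 n1 n2 n3 n4 s0 s1 s2 s3 s4 : ℕ)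
    (a0 : s0 = o4 + o0) (a1 : s1 = o0 + o1) (a2 : s2 = o1 + o2) (a3 : s3 = o2 + o3)
    (a4 : s4 = o3 + o4) (b0 : s0 = n0 + n1) (b1 : s1 = n2 + n3) (b2 : s2 = n0 + n4)
    (b3 : s3 = n1 + n2) (b4 : s4 = n3 + n4)
    (c0 : s0 ≤ 1) (c1 : s1 ≤ 1) (c2 : s2 ≤ 1) (c3 : s3 ≤ 1) (c4 : s4 ≤ 1) :
    Even (o0 + o1 + o2 + o3 + o4) := by
  have d0 : o0 ≤ 1 := by omega
  have d1 : o1 ≤ 1 := by omega
  have d2 : o2 ≤ 1 := by omega
  have d3 : o3 ≤ 1 := by omega
  have d4 : o4 ≤ 1 := by omega
  rw [Nat.even_iff]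
  have e0 : o0 = 0 ∨ o0 = 1 := by omega
  have e1 : o1 = 0 ∨ o1 = 1 := by omega
  have e2 : o2 = 0 ∨ o2 = 1 := by omega
  have e3 : o3 = 0 ∨ o3 = 1 := by omega
  have e4 : o4 = 0 ∨ o4 = 1 := by omega
  rcases e0 with h0 | h0 <;> rcases e1 with h1 | h1 <;> rcases e2 with h2 | h2 <;>
    rcases e3 with h3 | h3 <;> rcases e4 with h4 | h4 <;> omega

theorem no_cover : ¬ HasCycleCover tg wt := by
  rintro ⟨F, hF, hcov⟩
  have hk : ∀ e ∈ el, (F.map (fun C => k C e)).sum = wt e := by
    intro e he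
    have h1 := hcov e ((mem_edgeSet e).2 he)
    rw [countP_k] at h1
    exact h1
  have hpar : ∀ C ∈ F, ∀ x : Fin 12, Even ((inc x).map (k C)).sum := by
    intro C hC x
    rw [← dg_k C (fun e he => (mem_edgeSet e).1 (cyc_sub (hF C hC) he)) x]
    exact cyc_even (hF C hC) x
  have tri : ∀ m a b : Sym2 (Fin 12), m ∈ el → a ∈ el → b ∈ el → wt a + wt b = wt m →
      (∀ C ∈ F, Even (k C m + k C a + k C b)) → ∀ C ∈ F, k C m = k C a + k C b := by
    intro m a b hm ha hb hw hev
    refine eq_of_sum F (fun C => k C m) (fun C => k C a + k C b) ?_ ?_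
    · intro C hC
      have h1 := k_le C m
      have h2 := k_le C a
      have h3 := k_le C b
      obtain ⟨t, ht⟩ := hev C hC
      show k C m ≤ k C a + k C b
      omega
    · rw [Multiset.sum_map_add, hk a ha, hk b hb, hk m hm, hw]
  have par3 : ∀ x : Fin 12, ∀ m a b : Sym2 (Fin 12),
      (∀ f : Sym2 (Fin 12) → ℕ, ((inc x).map f).sum = f m + f a + f b) →
      ∀ C ∈ F, Even (k C m + k C a + k C b) := by
    intro x m a b hsum C hC
    rw [← hsum (k C)]
    exact hpar C hC x
  have P0 : ∀ C ∈ F, Even (k C s(0,5) + k C s(0,10) + k C s(0,11)) :=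
    par3 0 _ _ _ (fun f => by simp [inc, nbr]; ring)
  have P10 : ∀ C ∈ F, Even (k C s(10,11) + k C s(4,10) + k C s(0,10)) :=
    par3 10 _ _ _ (fun f => by
      simp only [inc, nbr, Matrix.cons_val, List.map_cons, List.map_nil, List.sum_cons, List.sum_nil]
      rw [Sym2.eq_swap (a := 10) (b := 4), Sym2.eq_swap (a := 10) (b := 0)]
      ring)
  have P11 : ∀ C ∈ F, Even (k C s(10,11) + k C s(1,11) + k C s(0,11)) :=
    par3 11 _ _ _ (fun f => by
      simp only [inc, nbr, Matrix.cons_val, List.map_cons, List.map_nil, List.sum_cons, List.sum_nil]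
      rw [Sym2.eq_swap (a := 11) (b := 1), Sym2.eq_swap (a := 11) (b := 0),
        Sym2.eq_swap (a := 11) (b := 10)]
      ring)
  have A0 : ∀ C ∈ F, k C s(0,5) = k C s(4,10) + k C s(1,11) := by
    refine tri _ _ _ (by decide) (by decide) (by decide) (by decide) ?_
    intro C hC
    have h0 := P0 C hC
    have h1 := P10 C hC
    have h2 := P11 C hC
    rw [Nat.even_iff] at h0 h1 h2 ⊢
    omega
  have A1 : ∀ C ∈ F, k C s(1,6) = k C s(1,11) + k C s(1,2) :=
    tri _ _ _ (by decide) (by decide) (by decide) (by decide) (par3 1 _ _ _ (fun f => by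
      simp only [inc, nbr, Matrix.cons_val, List.map_cons, List.map_nil, List.sum_cons, List.sum_nil]
      ring))
  have A2 : ∀ C ∈ F, k C s(2,7) = k C s(1,2) + k C s(2,3) :=
    tri _ _ _ (by decide) (by decide) (by decide) (by decide) (par3 2 _ _ _ (fun f => by
      simp only [inc, nbr, Matrix.cons_val, List.map_cons, List.map_nil, List.sum_cons, List.sum_nil]
      rw [Sym2.eq_swap (a := 2) (b := 1)]
      ring))
  have A3 : ∀ C ∈ F, k C s(3,8) = k C s(2,3) + k C s(3,4) :=
    tri _ _ _ (by decide) (by decide) (by decide) (by decide) (par3 3 _ _ _ (fun f => by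
      simp only [inc, nbr, Matrix.cons_val, List.map_cons, List.map_nil, List.sum_cons, List.sum_nil]
      rw [Sym2.eq_swap (a := 3) (b := 2)]
      ring))
  have A4 : ∀ C ∈ F, k C s(4,9) = k C s(3,4) + k C s(4,10) :=
    tri _ _ _ (by decide) (by decide) (by decide) (by decide) (par3 4 _ _ _ (fun f => by
      simp only [inc, nbr, Matrix.cons_val, List.map_cons, List.map_nil, List.sum_cons, List.sum_nil]
      rw [Sym2.eq_swap (a := 4) (b := 3)]
      ring))
  have A5 : ∀ C ∈ F, k C s(0,5) = k C s(5,7) + k C s(5,8) :=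
    tri _ _ _ (by decide) (by decide) (by decide) (by decide) (par3 5 _ _ _ (fun f => by
      simp only [inc, nbr, Matrix.cons_val, List.map_cons, List.map_nil, List.sum_cons, List.sum_nil]
      rw [Sym2.eq_swap (a := 5) (b := 0)]
      ring))
  have A6 : ∀ C ∈ F, k C s(1,6) = k C s(6,8) + k C s(6,9) :=
    tri _ _ _ (by decide) (by decide) (by decide) (by decide) (par3 6 _ _ _ (fun f => by
      simp only [inc, nbr, Matrix.cons_val, List.map_cons, List.map_nil, List.sum_cons, List.sum_nil]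
      rw [Sym2.eq_swap (a := 6) (b := 1)]
      ring))
  have A7 : ∀ C ∈ F, k C s(2,7) = k C s(5,7) + k C s(7,9) :=
    tri _ _ _ (by decide) (by decide) (by decide) (by decide) (par3 7 _ _ _ (fun f => by
      simp only [inc, nbr, Matrix.cons_val, List.map_cons, List.map_nil, List.sum_cons, List.sum_nil]
      rw [Sym2.eq_swap (a := 7) (b := 2), Sym2.eq_swap (a := 7) (b := 5)]
      ring))
  have A8 : ∀ C ∈ F, k C s(3,8) = k C s(5,8) + k C s(6,8) :=
    tri _ _ _ (by decide) (by decide) (by decide) (by decide) (par3 8 _ _ _ (fun f => by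
      simp only [inc, nbr, Matrix.cons_val, List.map_cons, List.map_nil, List.sum_cons, List.sum_nil]
      rw [Sym2.eq_swap (a := 8) (b := 3), Sym2.eq_swap (a := 8) (b := 5),
        Sym2.eq_swap (a := 8) (b := 6)]
      ring))
  have A9 : ∀ C ∈ F, k C s(4,9) = k C s(6,9) + k C s(7,9) :=
    tri _ _ _ (by decide) (by decide) (by decide) (by decide) (par3 9 _ _ _ (fun f => by
      simp only [inc, nbr, Matrix.cons_val, List.map_cons, List.map_nil, List.sum_cons, List.sum_nil]
      rw [Sym2.eq_swap (a := 9) (b := 4), Sym2.eq_swap (a := 9) (b := 6),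
        Sym2.eq_swap (a := 9) (b := 7)]
      ring))
  have hev : ∀ C ∈ F, Even (k C s(1,11) + k C s(1,2) + k C s(2,3) + k C s(3,4) + k C s(4,10)) := by
    intro C hC
    have a0 := A0 C hC
    have a1 := A1 C hC
    have a2 := A2 C hC
    have a3 := A3 C hC
    have a4 := A4 C hC
    have a5 := A5 C hC
    have a6 := A6 C hC
    have a7 := A7 C hC
    have a8 := A8 C hC
    have a9 := A9 C hC
    have b0 := k_le C s(0,5)
    have b1 := k_le C s(1,6)
    have b2 := k_le C s(2,7)
    have b3 := k_le C s(3,8)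
    have b4 := k_le C s(4,9)
    exact even_aux _ _ _ _ _ _ _ _ _ _ _ _ _ _ _ (a0.trans (Nat.add_comm _ _) |>.trans (Nat.add_comm _ _)) a1 a2 a3 a4 a5 a6.symm.symm a7 a8 a9 b0 b1 b2 b3 b4
  have hs := even_sum F _ hev
  rw [Multiset.sum_map_add, Multiset.sum_map_add, Multiset.sum_map_add, Multiset.sum_map_add,
    hk _ (by decide), hk _ (by decide), hk _ (by decide), hk _ (by decide), hk _ (by decide)] at hs
  revert hs
  decide

end Pool.Agent.Y320.CC
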