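import Pool.Agent.Y320.CC.Graph

set_option autoImplicit false

/-!
# `SCC = CPP = 24` for Tietze's graph
-/

namespace Pool.Agent.Y320.CC

/-- A shortest postman tour. -/
def tour : tg.Walk 0 0 :=
  .cons (v := 5) (by decide) <| .cons (v := 0) (by decide) <| .cons (v := 10) (by decide) <|
  .cons (v := 4) (by decide) <| .cons (v := 3) (by decide) <| .cons (v := 8) (by decide) <|
  .cons (v := 3) (by decide) <| .cons (v := 2) (by decide) <| .cons (v := 7) (by decide) <|
  .cons (v := 2) (by decide) <| .cons (v := 1) (by decide) <| .cons (v := 11) (by decide) <|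
  .cons (v := 1) (by decide) <| .cons (v := 6) (by decide) <| .cons (v := 9) (by decide) <|
  .cons (v := 6) (by decide) <| .cons (v := 8) (by decide) <| .cons (v := 5) (by decide) <|
  .cons (v := 7) (by decide) <| .cons (v := 9) (by decide) <| .cons (v := 4) (by decide) <|
  .cons (v := 10) (by decide) <| .cons (v := 11) (by decide) <| .cons (v := 0) (by decide) <|
  .nil

theorem not_isDiag_of_mem {V : Type} {G : SimpleGraph V} {e : Sym2 V} (he : e ∈ G.edgeSet) :
    ¬ e.IsDiag := G.not_isDiag_of_mem_edgeSet he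

theorem tour_edges : ∀ e ∈ el, e ∈ tour.edges := by decide

theorem tour_length : tour.length = 24 := by decide

theorem cpp_eq : cpp tg = 24 := by
  refine le_antisymm (Nat.sInf_le ⟨0, tour, ?_, tour_length⟩) (le_csInf ⟨24, 0, tour, ?_, tour_length⟩
    ?_)
  · intro e he
    exact tour_edges e ((mem_edgeSet e).1 he)
  · intro e he
    exact tour_edges e ((mem_edgeSet e).1 he)
  · rintro n ⟨v, p, hp, rfl⟩
    have h := le_card (p.edges : Multiset (Sym2 (Fin 12)))
      (fun e he => not_isDiag_of_mem (p.edges_subset_edgeSet (by simpa using he)))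
      (fun e he => by simpa using hp e ((mem_edgeSet e).2 he)) (fun x => closed_even p x)
    rwa [Multiset.coe_card, SimpleGraph.Walk.length_edges] at h

/-- The four hexagons. -/
def c1 : tg.Walk 10 10 :=
  .cons (v := 4) (by decide) <| .cons (v := 3) (by decide) <| .cons (v := 8) (by decide) <|
  .cons (v := 5) (by decide) <| .cons (v := 0) (by decide) <| .cons (v := 10) (by decide) <| .nil

def c2 : tg.Walk 10 10 :=
  .cons (v := 4) (by decide) <| .cons (v := 9) (by decide) <| .cons (v := 6) (by decide) <|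
  .cons (v := 1) (by decide) <| .cons (v := 11) (by decide) <| .cons (v := 10) (by decide) <| .nil

def c3 : tg.Walk 11 11 :=
  .cons (v := 1) (by decide) <| .cons (v := 2) (by decide) <| .cons (v := 7) (by decide) <|
  .cons (v := 5) (by decide) <| .cons (v := 0) (by decide) <| .cons (v := 11) (by decide) <| .nil

def c4 : tg.Walk 2 2 :=
  .cons (v := 3) (by decide) <| .cons (v := 8) (by decide) <| .cons (v := 6) (by decide) <|
  .cons (v := 9) (by decide) <| .cons (v := 7) (by decide) <| .cons (v := 2) (by decide) <| .nil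

theorem isCycle_of {V : Type} {G : SimpleGraph V} {v : V} (p : G.Walk v v) (h1 : p.edges.Nodup)
    (h2 : p.length ≠ 0) (h3 : p.support.tail.Nodup) : p.IsCycle := by
  refine ⟨⟨⟨h1⟩, ?_⟩, h3⟩
  rintro rfl
  exact h2 rfl

theorem c1_cyc : c1.IsCycle := isCycle_of c1 (by decide) (by decide) (by decide)
theorem c2_cyc : c2.IsCycle := isCycle_of c2 (by decide) (by decide) (by decide)
theorem c3_cyc : c3.IsCycle := isCycle_of c3 (by decide) (by decide) (by decide)
theorem c4_cyc : c4.IsCycle := isCycle_of c4 (by decide) (by decide) (by decide)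

/-- Edge set of a closed walk. -/
def T {v : Fin 12} (p : tg.Walk v v) : Finset (Sym2 (Fin 12)) := p.edges.toFinset

theorem mem_T {v : Fin 12} (p : tg.Walk v v) (e : Sym2 (Fin 12)) : e ∈ T p ↔ e ∈ p.edges := by
  rw [T, List.mem_toFinset]

theorem T_cyc {v : Fin 12} (p : tg.Walk v v) (hp : p.IsCycle) : IsCyc tg (T p) :=
  ⟨v, p, hp, fun e => mem_T p e⟩

theorem T_card {v : Fin 12} (p : tg.Walk v v) (hp : p.IsCycle) : (T p).card = p.length := by
  rw [T, List.toFinset_card_of_nodup hp.edges_nodup, SimpleGraph.Walk.length_edges]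

/-- The cover by four hexagons. -/
def cov : Multiset (Finset (Sym2 (Fin 12))) := {T c1, T c2, T c3, T c4}

theorem cov_edges : ∀ e ∈ el, e ∈ c1.edges ∨ e ∈ c2.edges ∨ e ∈ c3.edges ∨ e ∈ c4.edges := by
  decide

theorem cov_isCover : IsCover tg cov := by
  refine ⟨?_, ?_⟩
  · intro C hC
    simp only [cov, Multiset.insert_eq_cons, Multiset.mem_cons, Multiset.mem_singleton] at hC
    rcases hC with rfl | rfl | rfl | rfl
    exacts [T_cyc c1 c1_cyc, T_cyc c2 c2_cyc, T_cyc c3 c3_cyc, T_cyc c4 c4_cyc]
  · intro e he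
    simp only [cov, Multiset.insert_eq_cons, Multiset.mem_cons, Multiset.mem_singleton]
    rcases cov_edges e ((mem_edgeSet e).1 he) with h | h | h | h
    · exact ⟨T c1, Or.inl rfl, (mem_T c1 e).2 h⟩
    · exact ⟨T c2, Or.inr (Or.inl rfl), (mem_T c2 e).2 h⟩
    · exact ⟨T c3, Or.inr (Or.inr (Or.inl rfl)), (mem_T c3 e).2 h⟩
    · exact ⟨T c4, Or.inr (Or.inr (Or.inr rfl)), (mem_T c4 e).2 h⟩

theorem cov_sum : (cov.map Finset.card).sum = 24 := by
  simp only [cov, Multiset.insert_eq_cons, Multiset.map_cons, Multiset.sum_cons,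
    Multiset.map_singleton, Multiset.sum_singleton, T_card c1 c1_cyc, T_card c2 c2_cyc,
    T_card c3 c3_cyc, T_card c4 c4_cyc]
  decide

theorem dg_bind (F : Multiset (Finset (Sym2 (Fin 12)))) (x : Fin 12) :
    dg (F.bind Finset.val) x = (F.map (fun C => dg C.val x)).sum := by
  induction F using Multiset.induction_on with
  | empty => simp [dg]
  | cons C F ih =>
    rw [Multiset.cons_bind, dg_add, ih, Multiset.map_cons, Multiset.sum_cons]

theorem even_sum {α : Type} (F : Multiset α) (f : α → ℕ) (h : ∀ a ∈ F, Even (f a)) :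
    Even (F.map f).sum := by
  induction F using Multiset.induction_on with
  | empty => simp
  | cons a F ih =>
    rw [Multiset.map_cons, Multiset.sum_cons]
    exact (h a (Multiset.mem_cons_self a F)).add (ih (fun b hb => h b (Multiset.mem_cons_of_mem hb)))

theorem scc_eq : scc tg = 24 := by
  refine le_antisymm (Nat.sInf_le ⟨cov, cov_isCover, cov_sum⟩)
    (le_csInf ⟨24, cov, cov_isCover, cov_sum⟩ ?_)
  rintro n ⟨F, hF, rfl⟩
  have h := le_card (F.bind Finset.val)
    (fun e he => by
      rw [Multiset.mem_bind] at he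
      obtain ⟨C, hC, he⟩ := he
      exact not_isDiag_of_mem (cyc_sub (hF.1 C hC) he))
    (fun e he => by
      rw [Multiset.mem_bind]
      obtain ⟨C, hC, he⟩ := hF.2 e ((mem_edgeSet e).2 he)
      exact ⟨C, hC, he⟩)
    (fun x => by
      rw [dg_bind]
      exact even_sum F _ (fun C hC => cyc_even (hF.1 C hC) x))
  rw [Multiset.card_bind] at h
  exact h

end Pool.Agent.Y320.CC
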